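import Pool.Agent.Run7.h275.S.I0

set_option autoImplicit false

/-!
# Project RB (helper275), piece OIM: open immersions of spectra of subrings of a field
-/

namespace Pool.Agent.Run7.h300.SC

open AlgebraicGeometry CategoryTheory Pool.Agent.W418.LU2 Pool.Agent.Run7.h275.SC

variable {F : Type} [Field F]

/-- A common denominator. -/
theorem denom (V : ValuationSubring F) (B : Subring F) (s : Finset F)
    (hs : ∀ c ∈ s, c ∈ lo V.toSubring B) :
    ∃ t ∈ B, t ≠ 0 ∧ t⁻¹ ∈ V ∧ ∀ c ∈ s, c * t ∈ B := by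
  classical
  induction s using Finset.induction_on with
  | empty => exact ⟨1, B.one_mem, one_ne_zero, by rw [inv_one]; exact V.one_mem, by simp⟩
  | insert c s hc ih =>
    obtain ⟨t, ht, ht0, htV, hts⟩ := ih fun c hc => hs c (Finset.mem_insert_of_mem hc)
    obtain ⟨a, ha, b, hb, hb0, hbV, hcab⟩ := hs c (Finset.mem_insert_self _ _)
    refine ⟨t * b, B.mul_mem ht hb, mul_ne_zero ht0 hb0, ?_, ?_⟩
    · rw [mul_inv]
      exact V.mul_mem _ _ htV hbV
    · intro d hd
      rcases Finset.mem_insert.1 hd with rfl | hd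
      · have : d * (t * b) = a * t := by
          rw [hcab]; field_simp
        rw [this]
        exact B.mul_mem ha ht
      · have : d * (t * b) = d * t * b := by ring
        rw [this]
        exact B.mul_mem (hts d hd) hb

/-- Near a prime ideal of `C` the rings agree. -/
theorem key {B C : Subring F} (h : B ≤ C) (hfg : ∃ s : Finset F, C = Subring.closure ((B : Set F) ∪ s))
    (hlo : ∀ V : ValuationSubring F, C ≤ V.toSubring → lo V.toSubring B = lo V.toSubring C)
    (q : Ideal C) (hq : q ≠ ⊤) :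
    ∃ (t : F) (ht : t ∈ B), t ≠ 0 ∧ (⟨t, h ht⟩ : C) ∉ q ∧
      C ≤ Subring.closure ((B : Set F) ∪ {t⁻¹}) := by
  obtain ⟨s, hs⟩ := hfg
  obtain ⟨V, hV1, hV2⟩ := Ideal.image_subset_nonunits_valuationSubring q hq
  have hC : C ≤ lo V.toSubring B := by
    rw [hlo V hV1]
    exact le_lo _ _
  have hsC : ∀ c ∈ s, c ∈ C := by
    intro c hc
    rw [hs]
    exact Subring.subset_closure (Or.inr hc)
  obtain ⟨t, ht, ht0, htV, hts⟩ := denom V B s fun c hc => hC (hsC c hc)
  refine ⟨t, ht, ht0, ?_, ?_⟩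
  · intro htq
    have h1 : t ∈ V.nonunits := hV2 ⟨⟨t, h ht⟩, htq, rfl⟩
    rw [ValuationSubring.mem_nonunits_iff] at h1
    have h2 : V.valuation t⁻¹ ≤ 1 := (V.valuation_le_one_iff _).2 htV
    have h3 : V.valuation (t * t⁻¹) = 1 := by rw [mul_inv_cancel₀ ht0, map_one]
    rw [map_mul] at h3
    have h4 : V.valuation t * V.valuation t⁻¹ < 1 := by
      refine lt_of_le_of_lt (mul_le_mul' le_rfl h2) ?_
      rwa [mul_one]
    exact absurd h3 h4.ne
  · rw [hs, Subring.closure_le]
    rintro x (hx | hx)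
    · exact Subring.subset_closure (Or.inl hx)
    · have : x = x * t * t⁻¹ := by field_simp
      rw [this]
      exact Subring.mul_mem _ (Subring.subset_closure (Or.inl (hts x hx)))
        (Subring.subset_closure (Or.inr rfl))

theorem away {R D : Subring F} (hRD : R ≤ D) {t : F} (ht : t ∈ R) (h0 : t ≠ 0) (hinv : t⁻¹ ∈ D)
    (hD : D ≤ Subring.closure ((R : Set F) ∪ {t⁻¹})) :
    @IsLocalization.Away R _ (⟨t, ht⟩ : R) D _ (Subring.inclusion hRD).toAlgebra := by
  letI : Algebra R D := (Subring.inclusion hRD).toAlgebra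
  have halg : ∀ r : R, ((algebraMap R D r : D) : F) = r := fun _ => rfl
  refine (isLocalization_iff _ _).2 ⟨?_, ?_, ?_⟩
  · rintro ⟨_, n, rfl⟩
    have hu : IsUnit (algebraMap R D ⟨t, ht⟩) := by
      refine IsUnit.of_mul_eq_one (⟨t⁻¹, hinv⟩ : D) ?_
      apply Subtype.ext
      exact mul_inv_cancel₀ h0
    simp only [map_pow]
    exact hu.pow n
  · intro z
    have key2 : ∀ z ∈ Subring.closure ((R : Set F) ∪ {t⁻¹}), ∃ n : ℕ, z * t ^ n ∈ R := by
      intro z hz
      induction hz using Subring.closure_induction with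
      | mem x hx =>
        rcases hx with hx | hx
        · exact ⟨0, by simpa using hx⟩
        · refine ⟨1, ?_⟩
          rw [Set.mem_singleton_iff] at hx
          rw [hx, pow_one, inv_mul_cancel₀ h0]
          exact R.one_mem
      | zero => exact ⟨0, by simp⟩
      | one => exact ⟨0, by simp⟩
      | add x y hx hy h1 h2 =>
        obtain ⟨m, hm⟩ := h1
        obtain ⟨k, hk⟩ := h2
        refine ⟨m + k, ?_⟩
        have : (x + y) * t ^ (m + k) = x * t ^ m * t ^ k + y * t ^ k * t ^ m := by ring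
        rw [this]
        exact R.add_mem (R.mul_mem hm (R.pow_mem ht _)) (R.mul_mem hk (R.pow_mem ht _))
      | neg x hx h1 =>
        obtain ⟨m, hm⟩ := h1
        exact ⟨m, by rw [neg_mul]; exact R.neg_mem hm⟩
      | mul x y hx hy h1 h2 =>
        obtain ⟨m, hm⟩ := h1
        obtain ⟨k, hk⟩ := h2
        refine ⟨m + k, ?_⟩
        have : (x * y) * t ^ (m + k) = x * t ^ m * (y * t ^ k) := by ring
        rw [this]
        exact R.mul_mem hm hk
    obtain ⟨n, hn⟩ := key2 z.1 (hD z.2)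
    refine ⟨(⟨(z : F) * t ^ n, hn⟩, ⟨⟨t, ht⟩ ^ n, n, rfl⟩), ?_⟩
    apply Subtype.ext
    rfl
  · intro x y hxy
    refine ⟨1, ?_⟩
    have : (x : F) = y := by
      rw [← halg x, ← halg y, hxy]
    rw [Subtype.ext this]

theorem inc_open {R D : Subring F} (hRD : R ≤ D) {t : F} (ht : t ∈ R) (h0 : t ≠ 0) (hinv : t⁻¹ ∈ D)
    (hD : D ≤ Subring.closure ((R : Set F) ∪ {t⁻¹})) : IsOpenImmersion (inc hRD) := by
  letI : Algebra R D := (Subring.inclusion hRD).toAlgebra
  haveI : IsLocalization.Away (⟨t, ht⟩ : R) D := away hRD ht h0 hinv hD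
  exact IsOpenImmersion.of_isLocalization (R := R) (S := D) (⟨t, ht⟩ : R)

theorem inc_range {R D : Subring F} (hRD : R ≤ D) {t : F} (ht : t ∈ R) (h0 : t ≠ 0) (hinv : t⁻¹ ∈ D)
    (hD : D ≤ Subring.closure ((R : Set F) ∪ {t⁻¹})) (x : PrimeSpectrum R)
    (hx : (⟨t, ht⟩ : R) ∉ x.asIdeal) : ∃ y, inc hRD y = x := by
  letI : Algebra R D := (Subring.inclusion hRD).toAlgebra
  haveI : IsLocalization.Away (⟨t, ht⟩ : R) D := away hRD ht h0 hinv hD
  have h1 : Set.range (PrimeSpectrum.comap (algebraMap R D)) =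
      PrimeSpectrum.basicOpen (⟨t, ht⟩ : R) := PrimeSpectrum.localization_away_comap_range D _
  have h2 : x ∈ Set.range (PrimeSpectrum.comap (algebraMap R D)) := by
    rw [h1]
    exact hx
  obtain ⟨y, hy⟩ := h2
  exact ⟨y, hy⟩

theorem inc_comp {A B C : Subring F} (h1 : A ≤ B) (h2 : B ≤ C) :
    inc h2 ≫ inc h1 = inc (h1.trans h2) := by
  unfold inc
  rw [← Spec.map_comp, ← CommRingCat.ofHom_comp]
  rfl

/-- The piece OIM. -/
theorem t_OIM : S_OIM := by
  intro F _ B C h hfg hlo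
  have main : ∀ x : PrimeSpectrum C, ∃ (D : Subring F) (hCD : C ≤ D) (t : F) (ht : t ∈ B),
      (⟨t, h ht⟩ : C) ∉ x.asIdeal ∧ IsOpenImmersion (inc hCD) ∧
      IsOpenImmersion (inc (h.trans hCD)) ∧
      ∀ y : PrimeSpectrum C, (⟨t, h ht⟩ : C) ∉ y.asIdeal → ∃ z, inc hCD z = y := by
    intro x
    obtain ⟨t, ht, h0, htx, hC⟩ := key h hfg hlo x.asIdeal x.2.ne_top
    have hinv : t⁻¹ ∈ Subring.closure ((B : Set F) ∪ {t⁻¹}) := Subring.subset_closure (Or.inr rfl)
    have hD : Subring.closure ((B : Set F) ∪ {t⁻¹}) ≤ Subring.closure ((C : Set F) ∪ {t⁻¹}) :=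
      Subring.closure_mono (Set.union_subset_union_left _ h)
    exact ⟨_, hC, t, ht, htx, inc_open hC (h ht) h0 hinv hD,
      inc_open (h.trans hC) ht h0 hinv le_rfl,
      fun y hy => inc_range hC (h ht) h0 hinv hD y hy⟩
  refine IsOpenImmersion.of_forall_source_exists _ ?_ ?_
  · intro x y hxy
    obtain ⟨D, hCD, t, ht, htx, hD1, hD2, hD3⟩ := main x
    obtain ⟨x', hx'⟩ := hD3 x htx
    have hty : (⟨t, h ht⟩ : C) ∉ PrimeSpectrum.asIdeal y := by
      intro hty
      apply htx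
      have h1 : (⟨t, ht⟩ : B) ∈ (PrimeSpectrum.comap (Subring.inclusion h) y).asIdeal := hty
      have h2 : PrimeSpectrum.comap (Subring.inclusion h) x =
        PrimeSpectrum.comap (Subring.inclusion h) y := hxy
      rw [← h2] at h1
      exact h1
    obtain ⟨y', hy'⟩ := hD3 y hty
    have h3 : inc (h.trans hCD) x' = inc (h.trans hCD) y' := by
      rw [← inc_comp h hCD, Scheme.Hom.comp_apply, Scheme.Hom.comp_apply]
      rw [hx', hy']
      exact hxy
    have h4 := (inc (h.trans hCD)).isOpenEmbedding.injective h3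
    rw [← hx', ← hy', h4]
  · intro x
    obtain ⟨D, hCD, t, ht, htx, hD1, hD2, hD3⟩ := main x
    refine ⟨Sp D, inc hCD, hD1, ?_, ?_⟩
    · obtain ⟨z, hz⟩ := hD3 x htx
      exact ⟨z, hz⟩
    · rw [inc_comp]
      exact hD2

end Pool.Agent.Run7.h300.SC
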