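import Pool.Agent.Run7.h275.S.I1
import Pool.Agent.Run7.h300.SC.OIM

set_option autoImplicit false

/-!
# Project RB (helper275), pieces CTE and CTO: contact orders of arcs
-/

namespace Pool.Agent.Run7.h300.SC

open AlgebraicGeometry CategoryTheory Pool.Agent.W418.LU2 Pool.Agent.Run7.h275.SC

/-- Factorization of an arc through an affine open set. -/
theorem arc_affine {X : Scheme.{0}} {R : Type} [CommRing R] [IsLocalRing R]
    (α : Spec (CommRingCat.of R) ⟶ X) {V : X.Opens} (hV : IsAffineOpen V)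
    (hx : α (IsLocalRing.closedPoint R) ∈ V) :
    ∃ ρ : Γ(X, V) ⟶ CommRingCat.of R, Spec.map ρ ≫ hV.fromSpec = α := by
  have h1 : (α ⁻¹ᵁ V) = ⊤ := (IsLocalRing.closedPoint_mem_iff (R := R) (α ⁻¹ᵁ V)).1 hx
  have h2 : Set.range α ⊆ Set.range hV.fromSpec := by
    rw [hV.range_fromSpec]
    rintro _ ⟨z, rfl⟩
    have : z ∈ α ⁻¹ᵁ V := by rw [h1]; trivial
    exact this
  refine ⟨Spec.preimage (IsOpenImmersion.lift hV.fromSpec α h2), ?_⟩
  rw [Spec.map_preimage, IsOpenImmersion.lift_fac]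

/-- A function does not vanish at a point of `Spec R` over its basic open set. -/
theorem not_mem_of_basic {X : Scheme.{0}} {V : X.Opens} (hV : IsAffineOpen V) (g : Γ(X, V))
    (y : PrimeSpectrum Γ(X, V)) : hV.fromSpec y ∈ X.basicOpen g ↔ g ∉ y.asIdeal := by
  have h1 := hV.fromSpec_preimage_basicOpen g
  have h2 : (y ∈ hV.fromSpec ⁻¹ᵁ X.basicOpen g) ↔ y ∈ PrimeSpectrum.basicOpen g := by
    rw [h1]
    exact Iff.rfl
  exact h2

/-- The piece CTE. -/
theorem t_CTE : S_CTE := by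
  rintro X U R _ _ _ α ⟨z, hz⟩
  obtain ⟨_, ⟨V, hV, rfl⟩, hxV, -⟩ := X.isBasis_affineOpens.exists_subset_of_mem_open
    (Set.mem_univ (α (IsLocalRing.closedPoint R))) isOpen_univ
  obtain ⟨ρ, hρ⟩ := arc_affine α hV hxV
  have hzV : α z ∈ V := by
    have h1 : (α ⁻¹ᵁ V) = ⊤ := (IsLocalRing.closedPoint_mem_iff (R := R) (α ⁻¹ᵁ V)).1 hxV
    have : z ∈ α ⁻¹ᵁ V := by rw [h1]; trivial
    exact this
  obtain ⟨g, hg1, hg2⟩ := hV.exists_basicOpen_le ⟨α z, hz⟩ hzV
  have h3 : ρ g ≠ 0 := by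
    have h4 : hV.fromSpec (Spec.map ρ z) ∈ X.basicOpen g := by
      rw [← Scheme.Hom.comp_apply, hρ]
      exact hg2
    have h5 := (not_mem_of_basic hV g (Spec.map ρ z)).1 h4
    intro h6
    apply h5
    change ρ.hom g ∈ PrimeSpectrum.asIdeal z
    have : ρ.hom g = 0 := h6
    rw [this]
    exact zero_mem _
  have h7 := Ideal.iInf_pow_eq_bot_of_isLocalRing (IsLocalRing.maximalIdeal R)
    (IsLocalRing.maximalIdeal.isMaximal R).ne_top
  have h8 : ∃ q, ρ g ∉ IsLocalRing.maximalIdeal R ^ q := by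
    by_contra hc
    push Not at hc
    apply h3
    have : ρ g ∈ (⨅ i : ℕ, IsLocalRing.maximalIdeal R ^ i) := by
      rw [Ideal.mem_iInf]
      exact hc
    rw [h7] at this
    exact this
  obtain ⟨q, hq⟩ := h8
  exact ⟨q, V, hV, ρ, g, hg1, hρ, fun h => hq (Ideal.pow_le_pow_right (Nat.le_succ q) h)⟩

theorem gen_inc {F : Type} [Field F] {A B : Subring F} (h : A ≤ B) : gen B ≫ inc h = gen A := by
  unfold gen inc
  rw [← Spec.map_comp, ← CommRingCat.ofHom_comp]
  rfl

/-- The piece CTO. -/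
theorem t_CTO : S_CTO := by
  intro F _ X _ g₀ A B₀ j u hAB hFr hj hg hu hgu R _ _ β V hV ρ g hgU hα hρg
  set x : PrimeSpectrum A := PrimeSpectrum.comap β (IsLocalRing.closedPoint R) with hx
  have hxV : x ∈ j ⁻¹ᵁ V := by
    have h1 : (Spec.map ρ ≫ hV.fromSpec) (IsLocalRing.closedPoint R) ∈ V := by
      rw [Scheme.Hom.comp_apply]
      have : hV.fromSpec (Spec.map ρ (IsLocalRing.closedPoint R)) ∈ (V : Set X) := by
        rw [← hV.range_fromSpec]
        exact ⟨_, rfl⟩
      exact this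
    rw [hα, Scheme.Hom.comp_apply] at h1
    exact h1
  obtain ⟨_, ⟨s, rfl⟩, hxs, hsV⟩ :=
    PrimeSpectrum.isTopologicalBasis_basic_opens.exists_subset_of_mem_open hxV (j ⁻¹ᵁ V).2
  have hsu : IsUnit (β s) := by
    by_contra hc
    exact hxs ((IsLocalRing.mem_maximalIdeal _).2 hc)
  have hs0 : (s : F) ≠ 0 := by
    intro h
    have : s = 0 := Subtype.ext h
    rw [this, map_zero] at hsu
    exact not_isUnit_zero hsu
  have hAs : A ≤ Subring.closure ((A : Set F) ∪ {(s : F)⁻¹}) :=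
    fun a ha => Subring.subset_closure (Or.inl ha)
  set As : Subring F := Subring.closure ((A : Set F) ∪ {(s : F)⁻¹}) with hAsd
  have hsinv : (s : F)⁻¹ ∈ As := Subring.subset_closure (Or.inr rfl)
  letI : Algebra A As := (Subring.inclusion hAs).toAlgebra
  haveI hloc : IsLocalization.Away (s : A) As := away hAs s.2 hs0 hsinv le_rfl
  have hrange : Set.range (inc hAs ≫ j) ⊆ Set.range hV.fromSpec := by
    rw [hV.range_fromSpec]
    rintro _ ⟨y, rfl⟩
    rw [Scheme.Hom.comp_apply]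
    apply hsV
    have hu1 : IsUnit (algebraMap A As s) := IsLocalization.Away.algebraMap_isUnit s
    intro hc
    have hc' : algebraMap A As s ∈ PrimeSpectrum.asIdeal y := hc
    exact PrimeSpectrum.isPrime y |>.ne_top (Ideal.eq_top_of_isUnit_mem _ hc' hu1)
  obtain ⟨ψ, hψ⟩ : ∃ ψ : Γ(X, V) ⟶ CommRingCat.of As, Spec.map ψ ≫ hV.fromSpec = inc hAs ≫ j :=
    ⟨Spec.preimage (IsOpenImmersion.lift hV.fromSpec _ hrange), by
      rw [Spec.map_preimage, IsOpenImmersion.lift_fac]⟩
  set βs : As →+* R := IsLocalization.Away.lift (s : A) hsu with hβs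
  have hβs1 : ∀ a : A, βs (algebraMap A As a) = β a := fun a =>
    IsLocalization.Away.lift_eq (s : A) hsu a
  have hinc : Spec.map (CommRingCat.ofHom βs) ≫ inc hAs = Spec.map (CommRingCat.ofHom β) := by
    unfold inc
    rw [← Spec.map_comp, ← CommRingCat.ofHom_comp]
    congr 2
    ext a
    exact hβs1 a
  have hρψ : ψ ≫ CommRingCat.ofHom βs = ρ := by
    apply Spec.map_injective
    rw [Spec.map_comp, ← cancel_mono hV.fromSpec, Category.assoc, hψ, ← Category.assoc, hinc, hα]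
  have hρg2 : ρ g = βs (ψ g) := by
    rw [← hρψ]
    rfl
  obtain ⟨n, c, hc⟩ := IsLocalization.Away.surj (s : A) (ψ g : As)
  have hβc : β c = ρ g * β s ^ n := by
    rw [← hβs1 c, ← hc, map_mul, map_pow, hβs1, hρg2]
  refine ⟨c * s, ?_, ?_, β s ^ (n + 1), hsu.pow _, ?_⟩
  · intro h
    have h1 : c * s = 0 := Subtype.ext h
    have h2 : β (c * s) = 0 := by rw [h1, map_zero]
    rw [map_mul, hβc] at h2
    have h3 : ρ g = 0 := by
      have hu3 : IsUnit (β s ^ n * β s) := (hsu.pow n).mul hsu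
      have h4 : ρ g * (β s ^ n * β s) = 0 := by rw [← h2]; ring
      exact (hu3.mul_left_eq_zero).1 h4
    exact hρg h3
  · have hb0 : ((c * s : A) : F) ≠ 0 := by
      intro h
      have h1 : c * s = 0 := Subtype.ext h
      have h2 : β (c * s) = 0 := by rw [h1, map_zero]
      rw [map_mul, hβc] at h2
      have h3 : ρ g = 0 := by
        have hu3 : IsUnit (β s ^ n * β s) := (hsu.pow n).mul hsu
        have h4 : ρ g * (β s ^ n * β s) = 0 := by rw [← h2]; ring
        exact (hu3.mul_left_eq_zero).1 h4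
      exact hρg h3
    have hAb : A ≤ Subring.closure ((A : Set F) ∪ {((c * s : A) : F)⁻¹}) :=
      fun a ha => Subring.subset_closure (Or.inl ha)
    set Ab : Subring F := Subring.closure ((A : Set F) ∪ {((c * s : A) : F)⁻¹}) with hAbd
    have hbinv : ((c * s : A) : F)⁻¹ ∈ Ab := Subring.subset_closure (Or.inr rfl)
    have hbu : IsUnit (Subring.inclusion hAb (c * s)) := by
      refine IsUnit.of_mul_eq_one (⟨((c * s : A) : F)⁻¹, hbinv⟩ : Ab) ?_
      apply Subtype.ext
      exact mul_inv_cancel₀ hb0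
    have hrange2 : Set.range (inc hAb ≫ j) ⊆ Set.range u := by
      rintro _ ⟨y, rfl⟩
      rw [Scheme.Hom.comp_apply]
      set y' : PrimeSpectrum A := inc hAb y with hy'
      have hby : (c * s : A) ∉ y'.asIdeal := by
        intro hmem
        have hmem' : Subring.inclusion hAb (c * s) ∈ PrimeSpectrum.asIdeal y := hmem
        exact PrimeSpectrum.isPrime y |>.ne_top (Ideal.eq_top_of_isUnit_mem _ hmem' hbu)
      have hsy : s ∉ y'.asIdeal := fun h => hby (Ideal.mul_mem_left _ _ h)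
      have hcy : c ∉ y'.asIdeal := fun h => hby (Ideal.mul_mem_right _ _ h)
      obtain ⟨w, hw⟩ := inc_range hAs s.2 hs0 hsinv le_rfl y' hsy
      have h1 : j y' = hV.fromSpec (Spec.map ψ w) := by
        rw [← hw, ← Scheme.Hom.comp_apply, ← Scheme.Hom.comp_apply, hψ]
      have h2 : g ∉ PrimeSpectrum.asIdeal (Spec.map ψ w) := by
        intro hmem
        have hmem' : (ψ g : As) ∈ PrimeSpectrum.asIdeal w := hmem
        apply hcy
        rw [← hw]
        change algebraMap A As c ∈ PrimeSpectrum.asIdeal w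
        rw [← hc]
        exact Ideal.mul_mem_right _ _ hmem'
      have h3 := (not_mem_of_basic hV g (Spec.map ψ w)).2 h2
      have h4 := hgU h3
      rw [← h1] at h4
      exact h4
    obtain ⟨φ, hφ⟩ : ∃ φ : CommRingCat.of B₀ ⟶ CommRingCat.of Ab, Spec.map φ ≫ u = inc hAb ≫ j :=
      ⟨Spec.preimage (IsOpenImmersion.lift u _ hrange2), by
        rw [Spec.map_preimage, IsOpenImmersion.lift_fac]⟩
    have h5 : gen Ab ≫ Spec.map φ = gen B₀ := by
      rw [← cancel_mono u, Category.assoc, hφ, ← Category.assoc, gen_inc, hg, hgu]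
    have h6 : φ ≫ CommRingCat.ofHom Ab.subtype = CommRingCat.ofHom B₀.subtype := by
      apply Spec.map_injective
      rw [Spec.map_comp]
      exact h5
    intro z hz
    have h7 : Ab.subtype (φ (⟨z, hz⟩ : B₀)) = B₀.subtype ⟨z, hz⟩ := by
      change (φ ≫ CommRingCat.ofHom Ab.subtype) _ = CommRingCat.ofHom B₀.subtype _
      rw [h6]
    have h8 : (((φ (⟨z, hz⟩ : B₀) : Ab)) : F) = z := h7
    rw [← h8]
    exact Subtype.mem _
  · rw [map_mul, hβc, pow_succ]
    ring

end Pool.Agent.Run7.h300.SC
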